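import Mathlib

open Set Filter Topology

namespace Pool.Agent.Results.MP_6f16c7_an.Ext

/-- each positive element is a left or right zero divisor -/
def ZStar (A : Type*) [NonUnitalCStarAlgebra A] : Prop :=
  ∀ a : A, (∃ y : A, a = star y * y) → ∃ b : A, b ≠ 0 ∧ (a * b = 0 ∨ b * a = 0)

/-- nonzero, and the only closed two-sided ideals are zero and everything -/
def Simple (A : Type*) [NonUnitalCStarAlgebra A] : Prop :=
  Nontrivial A ∧ ∀ I : Submodule ℂ A, IsClosed (I : Set A) →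
    (∀ a x : A, x ∈ I → a * x ∈ I ∧ x * a ∈ I) → I = ⊥ ∨ I = ⊤

lemma ZStar.right {A : Type*} [NonUnitalCStarAlgebra A] (h : ZStar A) (y : A) :
    ∃ b : A, b ≠ 0 ∧ star y * y * b = 0 := by
  obtain ⟨b, hb, h1 | h1⟩ := h _ ⟨y, rfl⟩
  · exact ⟨b, hb, h1⟩
  · refine ⟨star b, by simpa using hb, ?_⟩
    have := congrArg star h1
    simpa [star_mul] using this

lemma ann_seq {B : Type*} [NonUnitalCStarAlgebra B] (h : ZStar B) (j : ℕ → B) :
    ∃ x : B, x ≠ 0 ∧ ∀ n, j n * x = 0 := by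
  letI := CStarAlgebra.spectralOrder B
  haveI := CStarAlgebra.spectralOrderedRing B
  let c : ℕ → ℝ := fun n => (1 / 2) ^ n / (1 + ‖star (j n) * j n‖)
  have hc : ∀ n, 0 < c n := fun n => by positivity
  let t : ℕ → B := fun n => c n • (star (j n) * j n)
  have ht : ∀ n, 0 ≤ t n := fun n => smul_nonneg (hc n).le (star_mul_self_nonneg _)
  have hs : Summable t := by
    refine Summable.of_norm_bounded summable_geometric_two fun n => ?_
    simp only [t, c, norm_smul, Real.norm_eq_abs]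
    rw [abs_of_pos (hc n), div_mul_eq_mul_div, div_le_iff₀ (by positivity)]
    have : (0 : ℝ) < (1 / 2) ^ n := by positivity
    nlinarith
  have h0 : 0 ≤ ∑' n, t n := tsum_nonneg ht
  have hsq : star (CFC.sqrt (∑' n, t n)) * CFC.sqrt (∑' n, t n) = ∑' n, t n := by
    rw [(CFC.sqrt_nonneg _).isSelfAdjoint.star_eq, CFC.sqrt_mul_sqrt_self _ h0]
  obtain ⟨x, hx, hx0⟩ := h.right (CFC.sqrt (∑' n, t n))
  rw [hsq] at hx0
  refine ⟨x, hx, fun n => ?_⟩
  have h1 : t n ≤ ∑' n, t n := hs.le_tsum n fun m _ => ht m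
  have h2 := star_left_conjugate_le_conjugate h1 x
  rw [mul_assoc (star x) (∑' n, t n), hx0, mul_zero] at h2
  have h3 := le_antisymm h2 (star_left_conjugate_nonneg (ht n) x)
  have h4 : c n • (star (j n * x) * (j n * x)) = 0 := by
    rw [← h3]
    simp only [t, star_mul, mul_smul_comm, smul_mul_assoc, mul_assoc]
  rcases smul_eq_zero.1 h4 with h5 | h5
  · exact absurd h5 (hc n).ne'
  · exact (CStarRing.star_mul_self_eq_zero_iff _).1 h5

lemma ann_set {B : Type*} [NonUnitalCStarAlgebra B] (h : ZStar B) {S : Set B} (hS : S.Countable) :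
    ∃ x : B, x ≠ 0 ∧ ∀ s ∈ S, s * x = 0 := by
  obtain ⟨j, hj⟩ := (hS.insert 0).exists_eq_range (insert_nonempty _ _)
  obtain ⟨x, hx, h1⟩ := ann_seq h j
  refine ⟨x, hx, fun s hs => ?_⟩
  obtain ⟨n, rfl⟩ : s ∈ range j := hj ▸ mem_insert_of_mem _ hs
  exact h1 n

theorem result (B A C : Type*) [NonUnitalCStarAlgebra B] [NonUnitalCStarAlgebra A]
    [NonUnitalCStarAlgebra C] (ι : B →⋆ₙₐ[ℂ] A) (π : A →⋆ₙₐ[ℂ] C)
    (hι : Function.Injective ι) (hπ : Function.Surjective π) (hex : Function.Exact ι π)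
    (hB : ZStar B) (hC : Simple C) (hC' : ZStar C) : ZStar A := by
  rintro a ⟨y, hy⟩
  by_contra hcon
  have hna : ∀ b : A, a * b = 0 → b = 0 := fun b hb => by
    by_contra h
    exact hcon ⟨b, h, Or.inl hb⟩
  have hl : ∀ (z : A) (s : B), ∃ s' : B, ι s' = z * ι s := fun z s =>
    (hex _).1 (by rw [map_mul, (hex _).2 ⟨s, rfl⟩, mul_zero])
  have hr : ∀ (z : A) (s : B), ∃ s' : B, ι s' = ι s * z := fun z s =>
    (hex _).1 (by rw [map_mul, (hex _).2 ⟨s, rfl⟩, zero_mul])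
  choose fl hfl using hl
  choose fr hfr using hr
  let I : Submodule ℂ A :=
    { carrier := {c | ∃ S : Set B, S.Countable ∧ ∀ x : B, (∀ s ∈ S, s * x = 0) → c * ι x = 0}
      add_mem' := by
        rintro c d ⟨S, hS, h1⟩ ⟨T, hT, h2⟩
        refine ⟨S ∪ T, hS.union hT, fun x hx => ?_⟩
        rw [add_mul, h1 x fun s hs => hx s (Or.inl hs), h2 x fun s hs => hx s (Or.inr hs), add_zero]
      zero_mem' := ⟨∅, countable_empty, fun x _ => zero_mul _⟩
      smul_mem' := by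
        rintro r c ⟨S, hS, h1⟩
        refine ⟨S, hS, fun x hx => ?_⟩
        rw [smul_mul_assoc, h1 x hx, smul_zero] }
  have hIc : IsClosed (I : Set A) := by
    refine IsSeqClosed.isClosed fun u c hu hc => ?_
    choose S hS h1 using hu
    refine ⟨⋃ n, S n, countable_iUnion hS, fun x hx => ?_⟩
    have h2 : Tendsto (fun n => u n * ι x) atTop (𝓝 (c * ι x)) := hc.mul_const _
    have h3 : (fun n => u n * ι x) = fun _ => 0 :=
      funext fun n => h1 n x fun s hs => hx s (mem_iUnion.2 ⟨n, hs⟩)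
    rw [h3] at h2
    exact tendsto_nhds_unique h2 tendsto_const_nhds
  have hIm : ∀ z c : A, c ∈ I → z * c ∈ I ∧ c * z ∈ I := by
    rintro z c ⟨S, hS, h1⟩
    refine ⟨⟨S, hS, fun x hx => by rw [mul_assoc, h1 x hx, mul_zero]⟩,
      ⟨fr z '' S, hS.image _, fun x hx => ?_⟩⟩
    rw [mul_assoc, ← hfl]
    refine h1 _ fun s hs => hι ?_
    have := congrArg ι (hx _ ⟨s, hs, rfl⟩)
    rw [map_mul, hfr, mul_assoc] at this
    rw [map_mul, hfl, this]
  have hJ : ∀ s : B, ι s ∈ I := fun s =>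
    ⟨{s}, countable_singleton _, fun x hx => by rw [← map_mul, hx s rfl, map_zero]⟩
  let L : A →L[ℂ] C := LinearMap.mkContinuous (π : A →ₗ[ℂ] C) 1 fun z => by
    rw [one_mul]; exact NonUnitalStarAlgHom.norm_apply_le π z
  have hL : ∀ z, L z = π z := fun _ => rfl
  have hpre : L ⁻¹' (I.map (L : A →ₗ[ℂ] C) : Set C) = I := by
    ext z
    constructor
    · rintro ⟨w, hw, h1⟩
      obtain ⟨s, hs⟩ := (hex (z - w)).1 (by rw [map_sub, sub_eq_zero]; exact h1.symm)
      have := I.add_mem (hJ s) hw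
      rwa [hs, sub_add_cancel] at this
    · intro hz
      exact ⟨z, hz, rfl⟩
  have hcl : IsClosed (I.map (L : A →ₗ[ℂ] C) : Set C) := by
    rw [← (L.isQuotientMap hπ).isClosed_preimage, hpre]
    exact hIc
  obtain ⟨b', hb', hb⟩ := hC'.right (π y)
  obtain ⟨b, rfl⟩ := hπ b'
  have hab : π (a * b) = 0 := by rw [hy, map_mul, map_mul, map_star, hb]
  obtain ⟨s, hs⟩ := (hex _).1 hab
  have hbI : b ∈ I := ⟨{s}, countable_singleton _, fun x hx => hna _ (by
    rw [← mul_assoc, ← hs, ← map_mul, hx s rfl, map_zero])⟩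
  rcases hC.2 _ hcl (by
    rintro c _ ⟨w, hw, rfl⟩
    obtain ⟨z, rfl⟩ := hπ c
    exact ⟨⟨z * w, (hIm z w hw).1, map_mul π z w⟩, ⟨w * z, (hIm z w hw).2, map_mul π w z⟩⟩) with h | h
  · have : π b ∈ I.map (L : A →ₗ[ℂ] C) := ⟨b, hbI, rfl⟩
    rw [h] at this
    exact hb' this
  · have : a ∈ (I : Set A) := by
      rw [← hpre, h]; trivial
    obtain ⟨S, hS, h1⟩ := this
    obtain ⟨x, hx, h2⟩ := ann_set hB hS
    exact hx (hι (by rw [hna _ (h1 x h2), map_zero]))

end Pool.Agent.Results.MP_6f16c7_an.Ext
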